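import Pool.Agent.Y344.HolesMain

/-!
# A 2-design whose spectrum of minimal defining set sizes has a hole
-/

set_option autoImplicit false

namespace Pool.Agent.Results.MP_13ec72_co.HoleInSpectrum

open Pool.Agent.Y344.HoleDefs

/-- There is a simple 2-(7,3,4) design the minimal defining sets of which have exactly the sizes
7, 8, 9, 10 and 13. So its spectrum has a hole: 11 and 12 are missing. -/
theorem result : ∃ D : Finset (Finset (Fin 7)),
    IsDesign 7 2 3 4 D ∧ Spec 7 2 3 4 D = {7, 8, 9, 10, 13} :=
  ⟨_, Pool.Agent.Y344.Holes.main⟩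

end Pool.Agent.Results.MP_13ec72_co.HoleInSpectrum
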